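import Pool.Agent.Lib.KF.Top
import Pool.Agent.Lib.KU.All

/-! Project kf: the theorem. -/

namespace Pool.Agent.Lib.KF

theorem aKF : St_KF := kf HS21.st_AUBIN KU.aK6

end Pool.Agent.Lib.KF
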