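import Pool.Agent.Lib.KX.Defs
import Pool.Agent.Lib.KT.B_CRM

/-! Project kf: raising the indices with the alternating symbol. -/

open scoped Classical Matrix

noncomputable section

namespace Pool.Agent.Lib.KF

open Pool.Agent.Lib.HS32
open Pool.Agent.Lib.RAA (kp kq st_KQ)
open Pool.Agent.Lib.KX (Ab)
open Pool.Agent.Lib.KT.CRM (cur kp_cur)

variable {n m q : ℕ}

/-- The alternating symbol. -/
def sy (F : Fin n → Fin n) : ℂ := ((1 : Mat n).submatrix F id).det

theorem sy_law (J : Mat n) (F : Fin n → Fin n) :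
    J.det * sy F = ∑ F' : Fin n → Fin n, (∏ i, J (F i) (F' i)) * sy F' := by
  have e := (Matrix.detRowAlternating (n := Fin n) (R := ℂ)).toMultilinearMap.map_sum
    fun i (j : Fin n) => J (F i) j • (1 : Mat n) j
  simp only [MultilinearMap.map_smul_univ, smul_eq_mul] at e
  rw [mul_comm, sy, ← Matrix.det_mul]
  refine (congrArg Matrix.det (Matrix.ext fun i j => ?_)).trans e
  simp [Matrix.mul_apply, Matrix.one_apply]

theorem sy_swap (F : Fin n → Fin n) {a b : Fin n} (h : a ≠ b) :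
    sy (F ∘ Equiv.swap a b) = -sy F := by
  have := Matrix.det_permute (Equiv.swap a b) ((1 : Mat n).submatrix F id)
  rw [Equiv.Perm.sign_swap h] at this
  simpa [sy] using this

/-- One index. -/
def ep (m : ℕ) : Matrix (Fin m → Fin (m + 1)) (Fin (m + 1)) ℂ :=
  Matrix.of fun K j => sy (Fin.cons j K)

theorem ep_law (J : Mat (m + 1)) : J.det • ep m = kp m J * ep m * Jᵀ := by
  ext K j
  rw [Matrix.smul_apply, smul_eq_mul, ep, Matrix.of_apply, sy_law,
    ← (Fin.consEquiv fun _ => Fin (m + 1)).sum_comp, Fintype.sum_prod_type]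
  simp only [Matrix.mul_apply, Finset.sum_mul, kp, kq, Matrix.of_apply, Matrix.transpose_apply,
    Fin.prod_univ_succ, Fin.consEquiv_apply, Fin.cons_zero, Fin.cons_succ]
  exact Finset.sum_congr rfl fun _ _ => Finset.sum_congr rfl fun _ _ =>
    (mul_assoc _ _ _).trans (mul_comm _ _)

theorem ep_swap (K : Fin m → Fin (m + 1)) (j : Fin (m + 1)) {a b : Fin m} (h : a ≠ b) :
    ep m (K ∘ Equiv.swap a b) j = -ep m K j := by
  refine Eq.trans (congrArg sy (funext fun i => ?_))
    (sy_swap (Fin.cons j K) ((Fin.succ_injective m).ne h))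
  refine Fin.cases ?_ (fun i => ?_) i
  · rw [Function.comp_apply, Equiv.swap_apply_of_ne_of_ne (Fin.succ_ne_zero a).symm
      (Fin.succ_ne_zero b).symm]
    rfl
  · rw [Function.comp_apply, (Fin.succ_injective m).swap_apply]
    rfl

theorem ep_inv : ∃ ρ : Matrix (Fin (m + 1)) (Fin m → Fin (m + 1)) ℂ, ρ * ep m = 1 := by
  refine ⟨Matrix.of fun j K => if K = j.succAbove then (ep m K j)⁻¹ else 0, ?_⟩
  ext j j'
  simp only [Matrix.mul_apply, Matrix.of_apply, ite_mul, zero_mul, Finset.sum_ite_eq',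
    Finset.mem_univ, if_true, Matrix.one_apply]
  split_ifs with h
  · subst h
    refine inv_mul_cancel₀ fun c => ?_
    have := Matrix.det_permute j.cycleRange.symm (1 : Mat (m + 1))
    rw [show (j.cycleRange.symm : _ → _) = Fin.cons j j.succAbove from funext fun i =>
      Fin.cases (Fin.cycleRange_symm_zero j) (Fin.cycleRange_symm_succ j) i] at this
    simpa using this.symm.trans c
  · obtain ⟨p, rfl⟩ := Fin.exists_succAbove_eq (Ne.symm h)
    exact mul_eq_zero_of_right _ (Matrix.det_zero_of_row_eq (Fin.succ_ne_zero p) rfl)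

/-- All indices. -/
def lv (q m : ℕ) : Matrix (Fin (q * m) → Fin (m + 1)) (Fin q → Fin (m + 1)) ℂ :=
  (kp q (ep m)).submatrix (cur (m + 1) q m) id

theorem lv_law (J : Mat (m + 1)) (a : (Fin q → Fin (m + 1)) → ℂ) :
    J.det ^ q • lv q m *ᵥ a = kp (q * m) J *ᵥ lv q m *ᵥ kp q Jᵀ *ᵥ a := by
  have e : J.det ^ q • kp q (ep m) = kp q (kp m J) * kp q (ep m) * kp q Jᵀ := by
    simp only [kp, (st_KQ q _ _ _).1]
    rw [show kq (fun _ : Fin m => J) * ep m * Jᵀ = _ from (ep_law J).symm]
    ext K j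
    simp [kq, Finset.prod_mul_distrib]
  rw [Matrix.mulVec_mulVec, Matrix.mulVec_mulVec, ← Matrix.smul_mulVec]
  refine congrArg (· *ᵥ a) (Matrix.ext fun K j => (congrFun₂ e _ j).trans ?_)
  simp only [Matrix.mul_apply, ← (cur (m + 1) q m).sum_comp, kp_cur]
  rfl

theorem lv_inj {a : (Fin q → Fin (m + 1)) → ℂ} (h : lv q m *ᵥ a = 0) : a = 0 := by
  obtain ⟨ρ, hρ⟩ := ep_inv (m := m)
  have e : kp q (ep m) *ᵥ a = 0 := funext fun K => by
    obtain ⟨K, rfl⟩ := (cur (m + 1) q m).surjective K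
    exact congrFun h K
  have t := congrArg (kp q ρ *ᵥ ·) e
  simp only [Matrix.mulVec_mulVec, kp, (st_KQ q _ _ _).1, hρ, Matrix.mulVec_zero] at t
  rwa [show kq (fun _ : Fin q => (1 : Mat (m + 1))) = 1 from (st_KQ q _ Unit Unit).2.2.1,
    Matrix.one_mulVec] at t

theorem lv_alt (a : (Fin q → Fin (m + 1)) → ℂ) :
    Ab (fun p => (finProdFinEquiv.symm p).1) (lv q m *ᵥ a) := by
  intro K p p' hp hb
  obtain ⟨⟨j, s⟩, rfl⟩ := finProdFinEquiv.surjective p
  obtain ⟨⟨j', s'⟩, rfl⟩ := finProdFinEquiv.surjective p'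
  simp only [Equiv.symm_apply_apply] at hb
  subst hb
  simp only [Matrix.mulVec, dotProduct, ← Finset.sum_neg_distrib, ← neg_mul]
  refine Finset.sum_congr rfl fun I _ => congrArg (· * _) ?_
  simp only [lv, kp, kq, Matrix.submatrix_apply, Matrix.of_apply, id]
  rw [← Finset.mul_prod_erase _ _ (Finset.mem_univ j), ← Finset.mul_prod_erase _ _
    (Finset.mem_univ j), ← neg_mul, ← ep_swap (a := s) (b := s') _ _ fun c => hp (by rw [c])]
  refine congrArg₂ _ (congrFun (congrArg _ (funext fun w => congrArg K ?_)) _)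
    (Finset.prod_congr rfl fun l hl => congrFun (congrArg _ (funext fun w => congrArg K ?_)) _)
  · exact (finProdFinEquiv.injective.comp (Prod.mk_right_injective j)).swap_apply s s' w
  · have t := fun u => finProdFinEquiv.injective.ne (a₁ := (l, w)) (a₂ := (j, u))
      fun c => Finset.ne_of_mem_erase hl (congrArg Prod.fst c)
    exact Equiv.swap_apply_of_ne_of_ne (t s) (t s')

end Pool.Agent.Lib.KF
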