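import Pool.Agent.Lib.KF.SDefs
import Pool.Agent.Lib.KF.Lev
import Pool.Agent.Lib.KS.B_DI1

/-! Project kf: covariant tensors in all charts. -/

open scoped Classical Topology ContDiff Matrix Manifold
open Set Filter

noncomputable section

namespace Pool.Agent.Lib.KF

open Pool.Agent.Lib.SV (E jacAt)
open Pool.Agent.Lib.HS32 Pool.Agent.Lib.KS
open Pool.Agent.Lib.RAA (kp kq st_KQ)
open Pool.Agent.Lib.HS.BBR (mf)
open Pool.Agent.Lib.KS.DI1 (jj jj_mul)
open Pool.Agent.Lib.KX (Ab)

variable {n q a : ℕ}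

/-- The components. -/
def co (n q : ℕ) : MultilinearMap ℂ (fun _ : Fin q => E n) ℂ →ₗ[ℂ] (Fin q → Fin n) → ℂ where
  toFun β j := β fun i => Pi.single (j i) 1
  map_add' _ _ := rfl
  map_smul' _ _ := rfl

theorem co_inj {β : MultilinearMap ℂ (fun _ : Fin q => E n) ℂ} (h : co n q β = 0) : β = 0 :=
  Module.Basis.ext_multilinear (fun _ => Pi.basisFun ℂ (Fin n)) fun j => by
    simp only [Pi.basisFun_apply]
    exact congrFun h j

/-- The change of chart. -/
def tq (q a : ℕ) (g : Mat n) : ((Fin q → Fin n) → ℂ) →ₗ[ℂ] (Fin q → Fin n) → ℂ :=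
  g.det ^ a • (kp q gᵀ).mulVecLin

theorem tq_ap (g : Mat n) (v : (Fin q → Fin n) → ℂ) (j : Fin q → Fin n) :
    tq q a g v j = g.det ^ a * ∑ k : Fin q → Fin n, (∏ i, g (k i) (j i)) * v k := rfl

theorem tq_mul (g g' : Mat n) (v : (Fin q → Fin n) → ℂ) :
    tq q a (g * g') v = tq q a g' (tq q a g v) := by
  simp only [tq, LinearMap.smul_apply, Matrix.mulVecLin_apply, Matrix.transpose_mul, kp,
    Matrix.det_mul, mul_pow, Matrix.mulVec_smul, Matrix.mulVec_mulVec, smul_smul, mul_comm,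
    (st_KQ q _ _ _).1]

theorem tq_one (v : (Fin q → Fin n) → ℂ) : tq q a 1 v = v := by
  simp only [tq, Matrix.mulVecLin_apply, Matrix.transpose_one, Matrix.det_one,
    one_pow, one_smul, (st_KQ q _ Unit Unit).2.2.1, Matrix.one_mulVec]

theorem tq_co (g : Mat n) (β : MultilinearMap ℂ (fun _ : Fin q => E n) ℂ) (j : Fin q → Fin n) :
    tq q a g (co n q β) j = β (fun i => g *ᵥ Pi.single (j i) 1) * g.det ^ a := by
  have e := β.map_sum fun i (k : Fin n) => g k (j i) • (Pi.single k 1 : E n)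
  simp only [MultilinearMap.map_smul_univ, smul_eq_mul] at e
  rw [tq_ap, mul_comm]
  refine congrArg (· * _) (e.symm.trans (congrArg β (funext fun i => funext fun k => ?_)))
  simp [Pi.single_apply]

variable {X : Type} [TopologicalSpace X] [ChartedSpace (E n) X]

/-- The components of a field of tensors. -/
def fm (a : ℕ) (β : X → MultilinearMap ℂ (fun _ : Fin q => E n) ℂ)
    (e : OpenPartialHomeomorph X (E n)) (z : E n) : (Fin q → Fin n) → ℂ :=
  tq q a (jm (chartAt (E n) (e.symm z) ∘ e.symm) z) (co n q (β (e.symm z)))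

variable {β : X → MultilinearMap ℂ (fun _ : Fin q => E n) ℂ} {x : X}
  {e e' : OpenPartialHomeomorph X (E n)}

theorem fm_at (hx : x ∈ e.source) :
    fm a β e (e x) = tq q a (jj (chartAt (E n) x) e x) (co n q (β x)) := by
  rw [fm, e.left_inv hx, jj]

variable [IsManifold 𝓘(ℂ, E n) ω X]

theorem fm_law (he : e ∈ (mf n X).C) (he' : e' ∈ (mf n X).C) (hx : x ∈ e.source)
    (hx' : x ∈ e'.source) : fm a β e' (e' x) = tq q a (jj e e' x) (fm a β e (e x)) := by
  rw [fm_at hx, fm_at hx', ← tq_mul,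
    ← jj_mul (HW.ch_mem x) he he' (mem_chart_source (E n) x) hx hx']

theorem fm_zero (he : e ∈ (mf n X).C) (hx : x ∈ e.source) (h : fm a β e (e x) = 0) : β x = 0 := by
  have c := mem_chart_source (E n) x
  have := fm_law (a := a) (β := β) he (HW.ch_mem x) hx c
  rw [h, map_zero, fm_at c, show jj (chartAt (E n) x) (chartAt (E n) x) x = 1 from
    (mTR n (mf n X)).2.2.1 _ (HW.ch_mem x) x c, tq_one] at this
  exact co_inj this

theorem fm_hol (hβ : β ∈ Tens n X q a) (he : e ∈ (mf n X).C) {z : E n} (hz : z ∈ e.target)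
    (j : Fin q → Fin n) : DifferentiableAt ℂ (fun w => fm a β e w j) z := by
  have hx := e.map_target hz
  have c := mem_chart_source (E n) (e.symm z)
  have t : HolN (chartAt (E n) (e.symm z) ∘ e.symm) (e (e.symm z)) :=
    ((mTR n (mf n X)).2.1 _ (HW.ch_mem _) e he _ c hx).1
  rw [e.right_inv hz] at t
  have d : ∀ k, DifferentiableAt ℂ (fun w => fm a β (chartAt (E n) (e.symm z)) w k)
      ((chartAt (E n) (e.symm z) ∘ e.symm) z) := fun k => by
    simp only [fm, tq_co, ← BCHN.det_eq]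
    exact hβ (e.symm z) fun i => Pi.single (k i) 1
  refine (((mCHN n _ _ t).2.2.2.2.1.self_of_nhds.fun_pow a).fun_mul (DifferentiableAt.fun_sum
    (u := Finset.univ) fun k _ => (HasFDerivAt.finsetProd (u := Finset.univ) fun i _ =>
      (((mHOL n _ _).2.2 (BCHN.hol_comp t (k i))).2.1 (j i)).self_of_nhds.congr_of_eventuallyEq
        (BCHN.jm_ev mHOL t (k i) (j i)) |>.hasFDerivAt).differentiableAt.fun_mul
      ((d k).comp z t.self_of_nhds))).congr_of_eventuallyEq ?_
  filter_upwards [(e.isOpen_inter_preimage_symm (chartAt (E n) (e.symm z)).open_source).mem_nhds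
    ⟨hz, c⟩] with w hw
  have := fm_law (a := a) (β := β) (HW.ch_mem _) he hw.2 (e.map_target hw.1)
  rw [jj, e.right_inv hw.1] at this
  exact congrFun this j

/-- The dictionary. -/
theorem dic {m : ℕ} {X ι I : Type} [TopologicalSpace X] [ChartedSpace (E (m + 1)) X]
    [IsManifold 𝓘(ℂ, E (m + 1)) ω X] {U : ι → Set X} {u : I → ι → ι → X → ℂ}
    (h : Cv (m + 1) U u) {k : ℕ} {α : Fin k → _} (hi : LinearIndependent ℂ α)
    (hα : ∀ j, α j ∈ Tens (m + 1) X q a) : ∃ V : Fin k → h.M.Fam ((Fin (q * m) → Fin (m + 1)) → ℂ),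
      Ind V ∧ ∀ s, KT.Lt univ (q * m) (q + a) (V s) ∧
        h.M.All fun e z => Ab (fun p => (finProdFinEquiv.symm p).1) (V s e z) := by
  refine ⟨fun s (e : OpenPartialHomeomorph X _) z => lv q m *ᵥ fm a (α s) e z, fun c hc => funext
    (Fintype.linearIndependent_iff.1 hi c (funext fun x => ?_)), fun s => ⟨⟨fun e he z hz _ => ?_,
      fun (e : OpenPartialHomeomorph X _) he (e' : OpenPartialHomeomorph X _) he' x hx hx' _ => ?_⟩,
      fun e _ z _ => lv_alt _⟩⟩
  · obtain ⟨e, he, hx⟩ := h.M.cov x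
    refine fm_zero (a := a) he.1 hx (lv_inj (Eq.trans ?_ (hc e he _ (e.map_source hx))))
    simp only [fm, Finset.sum_apply, Pi.smul_apply, map_sum, map_smul, Matrix.mulVec_sum,
      Matrix.mulVec_smul]
    rfl
  · filter_upwards [e.open_target.eventually_mem hz] with w hw
    exact differentiableAt_pi.2 fun K => DifferentiableAt.fun_sum fun j _ =>
      (fm_hol (hα s) he.1 hw j).const_mul _
  · refine Eq.trans ?_ (congrArg (fun v => kp _ (jj e e' x) *ᵥ lv q m *ᵥ v)
      (fm_law he.1 he'.1 hx hx').symm)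
    refine (congrArg (· • _) ((pow_add _ _ _).trans (mul_comm _ _))).trans ?_
    rw [mul_smul, lv_law, ← Matrix.mulVec_smul, ← Matrix.mulVec_smul]
    rfl

end Pool.Agent.Lib.KF
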