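import Pool.Agent.Lib.KF.Neg2
import Pool.Agent.Lib.KX.B_CR4

/-! Project kf: the tensors with values in the multiples of `L`. -/

open scoped Classical Topology ContDiff ComplexOrder Matrix
open Set Filter

noncomputable section

namespace Pool.Agent.Lib.KF

open Pool.Agent.Lib.HS32 Pool.Agent.Lib.KS Pool.Agent.Lib.K3S
open Pool.Agent.Lib.KX (Ab Mv4)

variable {n : ℕ} {M : Mf n} {I : Type} [Fintype I]

theorem mv4 [M.Cpt] {D : Dk M I} (h : AmpM D) {L : M.Co} (hL : M.Ov fun e e' x =>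
      L.c e e' x * ∏ k, (D.L k).c e e' x ^ D.a k = (M.J e e' x).det ^ D.c) {N q d C : ℕ}
    {β : Fin N → Fin q} (hS : {a : ℕ | ∃ (k : ℕ) (V : Fin k → M.Fam ((Fin N → Fin n) → ℂ)),
      (a + 1) ^ d ≤ C * k ∧ Ind V ∧ ∀ s, KT.Lt univ N (q + a) (V s) ∧
        M.All fun e z => Ab β (V s e z)}.Infinite) : Mv4 L d := by
  obtain ⟨r, hr⟩ : ∃ r, (_ ∩ {a | a % D.c = r}).Infinite := by_contra fun c =>
    hS (((finite_Iio D.c).biUnion fun r _ => not_infinite.1 fun t => c ⟨r, t⟩).subset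
      fun a ha => mem_biUnion (Nat.mod_lt a D.c0) ⟨ha, rfl⟩)
  obtain ⟨b, hb⟩ := negT h β (q + r)
  refine ⟨N, q + r + b * D.c, C, fun p => (β p).castLE (by omega),
    Infinite.of_image (fun a => r + (a + b) * D.c)
      ((hr.sdiff (finite_lt_nat ((b + 1) * D.c))).mono ?_)⟩
  rintro a ⟨⟨⟨k, V, v1, v2, v3⟩, a1⟩, a2⟩
  obtain ⟨a', a3⟩ := Nat.exists_eq_add_of_le' ((Nat.le_succ b).trans
    ((Nat.le_div_iff_mul_le D.c0).2 (Nat.le_of_not_lt a2)))
  obtain rfl : a = r + (a' + b) * D.c := by rw [← a3, ← a1, Nat.mod_add_div']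
  choose t t1 t2 using fun s => hb a' L (V s) hL (add_assoc q r _ ▸ (v3 s).1) (v3 s).2
  refine ⟨a', ⟨k, t, le_trans (Nat.pow_le_pow_left (by nlinarith [D.c0]) d) v1,
    fun c hc => v2 c fun e he z hz => ?_, fun s => ⟨t1 s, fun e he z hz K p p' h1 h2 =>
      (t2 s e he z hz).1 K p p' h1 (Fin.castLE_injective _ h2)⟩⟩, rfl⟩
  simp only [fun s => (t2 s e he z hz).2, smul_comm (c _), ← Finset.smul_sum]
  exact smul_eq_zero_of_right _ (hc e he z hz)

end Pool.Agent.Lib.KF
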