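import Pool.Agent.Lib.KX.Defs
import Pool.Agent.Lib.KS.B_NEG
import Pool.Agent.Lib.SIE.Tn

/-! Project kf: the maximum principle and division for twisted tensors. -/

open scoped Classical Topology ContDiff ComplexOrder Matrix
open Set Filter Complex

noncomputable section

namespace Pool.Agent.Lib.KF

open Pool.Agent.Lib.SV (E)
open Pool.Agent.Lib.HS32 Pool.Agent.Lib.HS32.Mf Pool.Agent.Lib.KS.NEG
open Pool.Agent.Lib.RAA (kp hl)
open Pool.Agent.Lib.DM (uv)
open Pool.Agent.Lib.KX (Lz Ab)

variable {n N B : ℕ} {M : Mf n} {L Λ : M.Co} {f : M.Fam ℂ} {φ Ω : M.Fam ℝ} {G : M.Fam (Mat n)}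
  {S : M.Fam ((Fin N → Fin n) → ℂ)}

/-- The norm of a twisted tensor. -/
theorem nrm (hG : M.Met G) (hΩ : M.WtC Λ Ω) (hS : Lz univ N B Λ S) : ∃ u : M.X → ℝ, M.Sm u ∧
    M.All fun e z => u (e.symm z) = uv N B (G e) (S e) z * Real.exp (-Ω e z) ∧
      ContDiffAt ℝ ∞ (uv N B (G e) (S e)) z ∧ 0 ≤ uv N B (G e) (S e) z ∧
      (u (e.symm z) = 0 ↔ S e z = 0) := by
  have i : M.Inv fun e z => uv N B (G e) (S e) z * Real.exp (-Ω e z) :=
    fun e he e' he' x hx hx' => by
      have a := DM.NRM.uv_eq N B (G e) (G e') (fun w => Λ.c e e' x • S e w) (S e') (e x) (e' x) _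
        ((mTR n M).2.1 e he e' he' x hx hx').2.1 (hG.cmp e he e' he' x hx hx')
        ((smul_smul _ _ _).trans (hS.law e he e' he' x hx hx' trivial))
      have c := hΩ.cmp e he e' he' x hx hx'
      have p := normSq_pos.2 (Λ.ne e he e' he' x hx hx')
      beta_reduce at c ⊢
      rw [a, c, neg_add, Real.exp_add, Real.exp_neg (Real.log _), Real.exp_log p]
      simp only [uv, DM.NRM.hq_smul]
      field_simp
  have k : M.All fun e z => _ := fun e he z hz => (DM.dCRV n N B).1 (G e) (S e) z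
    ((hG.sm.ev he hz).and (hG.pos.ev he hz)) (hS.hol e he z hz trivial)
  refine ⟨_, i.sm fun e he z hz => (k e he z hz).1.mul (hΩ.sm e he z hz).neg.exp,
    fun e he z hz => ⟨i.rep e he z hz, (k e he z hz).1, (k e he z hz).2.1, ?_⟩⟩
  rw [i.rep e he z hz, mul_eq_zero, or_iff_left (Real.exp_ne_zero _)]
  exact (k e he z hz).2.2.1

/-- A tensor with values in a bundle that is very negative along the hypersurface. -/
theorem vanT [M.Cpt] (hG : M.Met G) {C : ℝ} (hC : M.All fun e z =>
      ∀ s : E n → (Fin N → Fin n) → ℂ, HolN s z → s z ≠ 0 →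
        (C • G e z + hl (uv N B (G e) s) z).PosSemidef)
    (hf : M.HSecC L f) (hφ : M.WtC L φ) (hS : Lz univ N B Λ S) (hΩ : M.WtC Λ Ω)
    (h : ∀ x, M.ev f x = 0 → ∃ e ∈ M.C, x ∈ e.source ∧ fderiv ℂ (f e) (e x) ≠ 0 ∧
      ∃ v, fderiv ℂ (f e) (e x) v = 0 ∧ nl v (M.hw Ω e (e x) + C • G e (e x)) < 0) :
    M.All fun e z => f e z = 0 → S e z = 0 := by
  intro e₀ he₀ z₀ hz₀ h0
  obtain ⟨u, c, r⟩ := nrm hG hΩ hS
  have hx := (zi hf.toSecC e₀ he₀ z₀ hz₀).2 h0
  obtain ⟨y, hy, hm⟩ := (cl hφ hf.toSecC).isCompact.exists_isMaxOn ⟨_, hx⟩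
    c.continuous.continuousOn
  by_contra h1
  obtain ⟨r1, -, r2, r3⟩ := r e₀ he₀ z₀ hz₀
  have p : 0 < u y := ((r1.symm ▸ mul_nonneg r2 (Real.exp_pos _).le : 0 ≤ u _).lt_of_ne'
    (mt r3.1 h1)).trans_le (hm hx)
  obtain ⟨e, he, hye, d, v, v1, v2⟩ := h y hy
  have hz := e.map_source hye
  have c1 := c e he _ hz
  have p1 : 0 < (u ∘ e.symm) (e y) := by rwa [Function.comp_apply, e.left_inv hye]
  have k := levi (hf.holN e he _ hz) (not_not.1 (mt (hf.ne_iff he hye).2 (not_not.2 hy))) d
    (c1.log p1.ne') (by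
      filter_upwards [(zi hf.toSecC).ev he hz, c1.continuousAt.eventually (lt_mem_nhds p1)]
        with w h1 h2 h3
      refine Real.log_le_log h2 ?_
      rw [Function.comp_apply, Function.comp_apply, e.left_inv hye]
      exact hm (h1.2 h3)) v1
  obtain ⟨s1, s2, s3, s4⟩ := r e he _ hz
  have s0 : S e (e y) ≠ 0 := mt s4.2 p1.ne'
  have s5 : uv N B (G e) (S e) (e y) ≠ 0 := fun t => p1.ne' (s1.trans (by rw [t, zero_mul]))
  have q : hess (fun w => ((Real.log ((u ∘ e.symm) w) : ℝ) : ℂ)) (e y) + M.hw Ω e (e y) =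
      hl (uv N B (G e) (S e)) (e y) := by
    refine (hess_add (cd_ofReal (c1.log p1.ne')) (hΩ.smC e he _ hz)).symm.trans (hess_congr ?_)
    filter_upwards [r.ev he hz, s2.continuousAt.eventually_ne s5] with w h1 h2
    rw [Function.comp_apply, h1.1, Real.log_mul h2 (Real.exp_ne_zero _), Real.log_exp]
    push_cast
    ring
  have t : 0 ≤ nl v _ := (Complex.nonneg_iff.1
    ((hC e he _ hz _ (hS.hol e he _ hz trivial) s0).dotProduct_mulVec_nonneg v)).1
  rw [← q, map_add, map_add] at t
  rw [map_add] at v2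
  have k' : nl v _ ≤ 0 := k
  linarith

/-- The law holds everywhere when it holds on a dense set. -/
theorem lawD {O : Set M.X} (hO : Dense O) (hc : M.All fun e z => HolN (S e) z)
    (h : M.Ov fun e e' x => x ∈ O →
      ((M.J e e' x).det ^ B * Λ.c e e' x) • S e (e x) = kp N (M.J e e' x) *ᵥ S e' (e' x)) :
    Lz univ N B Λ S := by
  refine ⟨fun e he z hz _ => hc e he z hz, fun e he e' he' x hx hx' _ => ?_⟩
  have c := SIE.cont_J e he e' he' x hx hx'
  have a : ∀ g ∈ M.C, x ∈ g.source → ContinuousAt (fun y => S g (g y)) x := fun g hg t =>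
    ContinuousAt.comp (f := g) (hc g hg _ (g.map_source t)).self_of_nhds.continuousAt
      (g.continuousAt t)
  have l : ContinuousAt (Λ.c e e') x := (ContinuousAt.comp (f := e')
    (Λ.hol e he e' he' x hx hx').self_of_nhds.continuousAt (e'.continuousAt hx')).congr
      ((e'.open_source.eventually_mem hx').mono fun y t => congrArg _ (e'.left_inv t))
  have b : ContinuousAt (fun y => kp N (M.J e e' y) *ᵥ S e' (e' y)) x := by
    refine continuousAt_pi.2 fun I => tendsto_finsetSum _ fun K _ => ?_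
    have q : ContinuousAt (fun y => ∏ p, M.J e e' y (I p) (K p)) x :=
      tendsto_finsetProd _ fun p _ => continuousAt_pi.1 (continuousAt_pi.1 c _) _
    exact q.mul (continuousAt_pi.1 (a e' he' hx') K)
  refine tendsto_nhds_unique_of_frequently_eq
    ((((continuous_id.matrix_det.continuousAt.comp c).pow B).mul l).smul (a e he hx)) b ?_
  exact ((mem_closure_iff_frequently.1 (hO x)).and_eventually
    ((e.open_source.eventually_mem hx).and (e'.open_source.eventually_mem hx'))).mono
      fun y t => h e he e' he' y t.2.1 t.2.2 t.1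

/-- Division of a family of functions by the equation of the hypersurface. -/
theorem divF {g : M.Fam ℂ} (hf : M.All fun e z => HolN (f e) z)
    (hr : M.All fun e z => f e z = 0 → fderiv ℂ (f e) z ≠ 0) (hg : M.All fun e z => HolN (g e) z)
    (hv : M.All fun e z => f e z = 0 → g e z = 0) :
    ∃ s : M.Fam ℂ, M.All fun e z => HolN (s e) z ∧ g e z = s e z * f e z := by
  choose! u u1 u2 using fun e he z hz =>
    dvd (hf e he z hz) (hr e he z hz) (hg e he z hz) (hv.ev he hz)
  refine ⟨fun e w => u e w w, fun e he z hz => ⟨?_, (u2 e he z hz).self_of_nhds⟩⟩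
  refine ((u1 e he z hz).and (Eventually.eventually_nhds (p := fun w => u e w w = u e z w) ?_)).mono
    fun w k => k.1.congr_of_eventuallyEq k.2
  filter_upwards [e.open_target.eventually_mem hz, u1 e he z hz,
    (u2 e he z hz).eventually_nhds] with w h1 h2 h3
  exact uq (u1 e he w h1).self_of_nhds.continuousAt h2.continuousAt
    (((u2 e he w h1).and h3).mono fun y k => k.1.symm.trans k.2) (fr_ne (hr e he w h1))

theorem dns (hf : M.SecC L f) (hr : M.All fun e z => f e z = 0 → fderiv ℂ (f e) z ≠ 0) :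
    Dense {x | M.ev f x ≠ 0} := fun x => by
  obtain ⟨c1, c2⟩ := (mTR n M).1 x
  have hz := (M.ch x).map_source c2
  exact mem_closure_iff_frequently.2 (((M.ch x).tendsto_symm c2).frequently
    (((fr_ne (hr _ c1 _ hz)).and_eventually ((zi hf).ev c1 hz)).mono fun w t => mt t.2.1 t.1))

/-- Division of a tensor. -/
theorem divT (hf : M.HSecC L f) (hr : M.All fun e z => f e z = 0 → fderiv ℂ (f e) z ≠ 0)
    (hS : Lz univ N B (K3S.TW.sm2 Λ L) S) (hv : M.All fun e z => f e z = 0 → S e z = 0)
    {r : ℕ} {β : Fin N → Fin r} (hβ : M.All fun e z => Ab β (S e z)) :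
    ∃ s, Lz univ N B Λ s ∧ M.All fun e z => S e z = f e z • s e z ∧ Ab β (s e z) := by
  choose s hs using fun I => divF (g := fun e z => S e z I) hf.holN hr
    (fun e he z hz => (hS.hol e he z hz trivial).mono fun w t => differentiableAt_pi.1 t I)
    fun e he z hz t => congrFun (hv e he z hz t) I
  have q : M.All fun e z => S e z = f e z • fun I => s I e z := fun e he z hz =>
    funext fun I => (hs I e he z hz).2.trans (mul_comm _ _)
  refine ⟨fun e z I => s I e z, lawD (dns hf.toSecC hr) (fun e he z hz => (eventually_all.2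
    fun I => (hs I e he z hz).1).mono fun w t => differentiableAt_pi.2 t)
    fun e he e' he' x hx hx' t => ?_, fun e he z hz => ⟨q e he z hz, fun I p p' h1 h2 => ?_⟩⟩
  · have a := hS.law e he e' he' x hx hx' trivial
    have b := hf.cmp e he e' he' x hx hx'
    beta_reduce at a b ⊢
    rw [q.at he hx, q.at he' hx', Matrix.mulVec_smul, smul_smul] at a
    refine smul_right_injective _ ((hf.ne_iff he' hx').1 t) (Eq.trans ?_ a)
    beta_reduce
    rw [smul_smul, b]
    refine congrArg (· • _) ?_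
    simp only [K3S.TW.sm2]
    ring
  · refine uq (b := fun w => -s I e w) (hs _ e he z hz).1.self_of_nhds.continuousAt
      (hs I e he z hz).1.self_of_nhds.continuousAt.neg ?_ (fr_ne (hr e he z hz))
    filter_upwards [e.open_target.eventually_mem hz] with w hw
    rw [neg_mul, ← (hs _ e he w hw).2, ← (hs I e he w hw).2]
    exact hβ e he w hw I p p' h1 h2

end Pool.Agent.Lib.KF
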