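import Pool.Agent.Lib.KS.SDefs

/-! Definitions used in the statement: holomorphic covariant tensors. -/

open scoped Matrix

noncomputable section

namespace Pool.Agent.Lib.KF

open Pool.Agent.Lib.SV Pool.Agent.Lib.HS

variable (n : ℕ) (X : Type) [TopologicalSpace X] [ChartedSpace (E n) X]

/-- Holomorphic covariant tensors of order `q` with values in the `a`-th power of the canonical
bundle: `α y` is the value at `y` in the preferred chart of `y`. -/
def Tens (q a : ℕ) : Submodule ℂ (X → MultilinearMap ℂ (fun _ : Fin q => E n) ℂ) where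
  carrier := {α | ∀ (x : X) (v : Fin q → E n), DifferentiableAt ℂ (fun z =>
    α ((chartAt (E n) x).symm z) (fun i => jacM x z *ᵥ v i) * jacAt n X x z ^ a)
      (chartAt (E n) x x)}
  add_mem' := fun hs ht x v => by
    simpa only [Pi.add_apply, add_apply, add_mul] using (hs x v).fun_add (ht x v)
  zero_mem' := fun x v => by simp
  smul_mem' := fun c s hs x v => by
    simpa only [Pi.smul_apply, smul_apply, smul_eq_mul, mul_assoc] using
      (hs x v).const_mul c

/-- For infinitely many `m` the space `V m` has at least `(m + 1) ^ d / C` independent elements. -/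
def Many {W : Type} [AddCommGroup W] [Module ℂ W] (V : ℕ → Submodule ℂ W) (d : ℕ) : Prop :=
  ∃ C : ℕ, {m : ℕ | ∃ (k : ℕ) (s : Fin k → W), (m + 1) ^ d ≤ C * k ∧ LinearIndependent ℂ s ∧
    ∀ j, s j ∈ V m}.Infinite

end Pool.Agent.Lib.KF
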