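import Pool.Agent.Lib.KF.Dic
import Pool.Agent.Lib.KF.Mid
import Pool.Agent.Lib.KX.All
import Pool.Agent.Lib.KS.Dkp

/-! Project kf: the statement from the trunk. -/

open scoped Classical Topology ContDiff ComplexOrder Matrix Manifold
open Set Filter

noncomputable section

namespace Pool.Agent.Lib.KF

open Pool.Agent.Lib.SV (E Pluri)
open Pool.Agent.Lib.HS (Mat)
open Pool.Agent.Lib.HS32 hiding Mat
open Pool.Agent.Lib.GH Pool.Agent.Lib.K3S Pool.Agent.Lib.KS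

/-- The Kodaira dimension is at least the order of growth of the twisted tensors. -/
def St_KF : Prop := ∀ (n : ℕ) (X ι I : Type) [TopologicalSpace X] [ChartedSpace (E n) X]
  [IsManifold 𝓘(ℂ, E n) ω X] [CompactSpace X] [T2Space X] [ConnectedSpace X] [Fintype I]
  (G β : X → Mat n) (U : ι → Set X) (f : I → ι → X → ℂ) (u : I → ι → ι → X → ℂ) (a : I → ℚ)
  (q d : ℕ), 0 < n → Kaehler G → Semi n G β → Ctr n β U f u → Amp U u β f → (∀ k, 0 ≤ a k) →
  NefW n G β U u (fun k => -a k) → Many (Tens n X q) d → Many (Pluri n X) d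

theorem kf (hA : HS.St_AUBIN) (hK : KU.St_K6) : St_KF := by
  intro n X ι I _ _ _ _ _ _ _ G β U f u a q d hn hG hβ hC hP ha hN ⟨C, hq⟩
  obtain ⟨n, rfl⟩ := Nat.exists_eq_add_one_of_ne_zero hn.ne'
  obtain ⟨c, c0, e, he⟩ := BRG.den ha
  obtain ⟨h, i, D, o⟩ := aBR0 _ X ι I G β U f u c e hn hG hβ hC c0 (by simpa only [he] using hN)
  have : h.M.Cpt := ⟨‹_›, ‹_›, ‹_›⟩
  have am := kAMP kKEY _ X ι I G β U f u c e h i D o hP
  obtain ⟨P, p⟩ := dkp D
  obtain ⟨Y, m, m0, -, -, y1, y2⟩ := KX.aTK4 hA P d (mv4 am p.law (C := C) (hq.mono fun b hb => by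
    obtain ⟨k, s, s1, s2, s3⟩ := hb
    obtain ⟨V, v⟩ := dic h s2 s3
    exact ⟨k, V, s1, v⟩)) (p.neg am)
  exact p.pl (GL3.gk hK Y m0 y1 y2)

end Pool.Agent.Lib.KF
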